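import Pool.Agent.H51.EG4

/-! # The number of forcibly biconnected degree sequences is not unimodal in the degree sum -/

namespace Pool.Agent.Results.MP_5c9610_co.Dip

open Finset

set_option linter.constructorNameAsVariable false

/-- `G` is a realization of `d`: vertex `i` has degree `d i` -/
def IsRealization {n : ℕ} (G : SimpleGraph (Fin n)) (d : Fin n → ℕ) : Prop :=
  ∀ i, (G.neighborSet i).ncard = d i

/-- biconnected (for `n ≥ 3` vertices): connected, and deleting any vertex leaves a connected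
graph -/
def Biconnected {n : ℕ} (G : SimpleGraph (Fin n)) : Prop :=
  G.Connected ∧ ∀ v, (G.induce ({v}ᶜ : Set (Fin n))).Connected

/-- graphical, and every realization is biconnected -/
def ForciblyBiconnected {n : ℕ} (d : Fin n → ℕ) : Prop :=
  (∃ G : SimpleGraph (Fin n), IsRealization G d) ∧
    ∀ G : SimpleGraph (Fin n), IsRealization G d → Biconnected G

/-- the set counted by `F₂(n, N)` -/
def seqs (n N : ℕ) : Set (Fin n → ℕ) :=
  {d | Antitone d ∧ ∑ i, d i = N ∧ ForciblyBiconnected d}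

/-- the number of forcibly biconnected degree sequences of length `n` and sum `N` -/
noncomputable def F₂ (n N : ℕ) : ℕ := (seqs n N).ncard

/-- `a 0, …, a m` is unimodal -/
def Unimodal (m : ℕ) (a : ℕ → ℕ) : Prop :=
  ∃ k ≤ m, (∀ i, i < k → a i ≤ a (i + 1)) ∧ ∀ i, k ≤ i → i < m → a (i + 1) ≤ a i

open Pool.Agent.H51.EG

lemma mem_seqs {n N : ℕ} {d : Fin n → ℕ} :
    d ∈ seqs n N ↔ Antitone d ∧ ∑ i, d i = N ∧ ForciblyBiconnected d := Iff.rfl

lemma conn_of {V : Type*} (G : SimpleGraph V) (h : V) (P : V → Prop)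
    (hP : ∀ x, P x → x ≠ h → G.Adj x h) (hQ : ∀ x, ¬ P x → ∃ y, P y ∧ G.Adj x y) :
    G.Connected := by
  have key : ∀ x, G.Reachable x h := by
    have h1 : ∀ x, P x → G.Reachable x h := by
      intro x hx
      by_cases hxh : x = h
      · subst hxh; exact SimpleGraph.Reachable.refl _
      · exact (hP x hx hxh).reachable
    intro x
    by_cases hx : P x
    · exact h1 x hx
    · obtain ⟨y, hy, hxy⟩ := hQ x hx
      exact hxy.reachable.trans (h1 y hy)
  have : Nonempty V := ⟨h⟩
  exact ⟨fun x y => (key x).trans (key y).symm⟩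

lemma fb_tight (n : ℕ) (hn : 5 ≤ n) (D : ℕ → ℕ) (hgr : Gr (fun i : Fin n => D i))
    (htwo : ∀ i, i < n → 2 ≤ D i)
    (ht : D 0 + D 1 + D 2 + D 3 = 12 + ∑ i ∈ Ico 4 n, D i) :
    ForciblyBiconnected (fun i : Fin n => D i) := by
  classical
  refine ⟨?_, ?_⟩
  · obtain ⟨A, hA, hAd⟩ := hgr
    exact ⟨toG A hA, toG_realizes hA hAd⟩
  intro G hG
  have hsub : range 4 ⊆ range n := by intro i; simp only [Finset.mem_range]; omega
  set K := dn n (range 4) with hK
  have hKc : K.card = 4 := by rw [hK, card_dn _ hsub]; simp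
  have hd : ∀ i, ∑ j, ofG G i j = (D i : ℤ) := fun i => by rw [sum_ofG, hG i]
  have hKsum : ∑ i ∈ K, (D i : ℤ) = D 0 + D 1 + D 2 + D 3 := by
    have := sum_dn (n := n) (range 4) hsub D
    rw [← hK] at this
    have h2 : ((∑ i ∈ K, D i : ℕ) : ℤ) = ((∑ i ∈ range 4, D i : ℕ) : ℤ) := by rw [this]
    push_cast at h2
    rw [h2]
    simp [Finset.sum_range_succ]
  have hKcsum : ∑ i ∈ Kᶜ, (D i : ℤ) = ∑ i ∈ Ico 4 n, (D i : ℤ) := by
    have := sum_dn (n := n) (range n \ range 4) Finset.sdiff_subset D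
    rw [← dn_compl, ← hK, ico_eq] at this
    exact_mod_cast this
  obtain ⟨hcl, hout⟩ := tight (ofG_isMat G) hd K (by
    rw [hKsum, hKcsum, hKc]
    have : ((D 0 + D 1 + D 2 + D 3 : ℕ) : ℤ) = ((12 + ∑ i ∈ Ico 4 n, D i : ℕ) : ℤ) := by rw [ht]
    push_cast at this
    rw [this]; norm_num)
  have hhub : ∀ x, x ∉ K → ∀ v, ∃ y ∈ K, y ≠ v ∧ G.Adj x y := by
    intro x hx v
    by_contra hc
    push Not at hc
    have h1 := hout x (Finset.mem_compl.2 hx)
    have h2 : ∑ i ∈ K, ofG G x i ≤ ∑ i ∈ K, (if i = v then (1 : ℤ) else 0) := by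
      refine Finset.sum_le_sum fun i hi => ?_
      by_cases hiv : i = v
      · rw [if_pos hiv]; exact mat_le (ofG_isMat G) _ _
      · rw [if_neg hiv]
        have := hc i hi hiv
        rw [← ofG_adj] at this
        rcases (ofG_isMat G).1 x i with h | h
        · rw [h]
        · exact absurd h this
    rw [h1, Finset.sum_ite_eq'] at h2
    have h3 := htwo x x.2
    have h4 : (2 : ℤ) ≤ D x := by exact_mod_cast h3
    split_ifs at h2 <;> omega
  have hadj : ∀ x y, x ∈ K → y ∈ K → x ≠ y → G.Adj x y := fun x y hx hy hxy => by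
    rw [← ofG_adj]; exact hcl x hx y hy hxy
  have hmem : ∀ i : Fin n, (i : ℕ) < 4 → i ∈ K := fun i hi => by
    rw [hK]; simp [dn, hi]
  refine ⟨?_, ?_⟩
  · refine conn_of G ⟨0, by omega⟩ (· ∈ K) (fun x hx hxh => hadj _ _ hx (hmem _ (by simp)) hxh) ?_
    intro x hx
    obtain ⟨y, hy, _, hxy⟩ := hhub x hx x
    exact ⟨y, hy, hxy⟩
  · intro v
    obtain ⟨h, hh4, hhv⟩ : ∃ h : Fin n, (h : ℕ) < 4 ∧ h ≠ v := by
      by_cases h0 : (⟨0, by omega⟩ : Fin n) = v
      · refine ⟨⟨1, by omega⟩, by simp, ?_⟩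
        rw [← h0]; simp [Fin.ext_iff]
      · exact ⟨⟨0, by omega⟩, by simp, h0⟩
    refine conn_of (G.induce ({v}ᶜ : Set (Fin n))) ⟨h, by simpa using hhv⟩
      (fun x => (x : Fin n) ∈ K) ?_ ?_
    · intro x hx hxh
      simp only [SimpleGraph.comap_adj, Function.Embedding.subtype_apply]
      exact hadj _ _ hx (hmem h hh4) (fun e => hxh (Subtype.ext e))
    · intro x hx
      obtain ⟨y, hy, hyv, hxy⟩ := hhub x hx v
      refine ⟨⟨y, by simpa using hyv⟩, hy, ?_⟩
      simpa only [SimpleGraph.comap_adj, Function.Embedding.subtype_apply] using hxy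

/-- the sequences `a, b, c, d, x, y, 2, 2, …` of length 52 -/
def sq (a b c d x y : ℕ) (i : ℕ) : ℕ := [a, b, c, d, x, y].getD i 2

lemma sq6 (a b c d x y i : ℕ) (hi : 6 ≤ i) : sq a b c d x y i = 2 := by
  unfold sq
  exact List.getD_eq_default _ _ (by simpa using hi)

lemma sq_anti (a b c d x y : ℕ) (hab : b ≤ a) (hbc : c ≤ b) (hcd : d ≤ c) (hdx : x ≤ d)
    (hxy : y ≤ x) (hy : 2 ≤ y) (i : ℕ) : sq a b c d x y (i + 1) ≤ sq a b c d x y i := by
  rcases Nat.lt_or_ge i 6 with h | h
  · interval_cases i <;> simp [sq] <;> omega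
  · rw [sq6 _ _ _ _ _ _ _ (by omega), sq6 _ _ _ _ _ _ _ h]

lemma sq_fb (a b c d x y : ℕ) (ha : a ≤ 51) (hab : b ≤ a) (hbc : c ≤ b) (hcd : d ≤ c)
    (hdx : x ≤ d) (hxy : y ≤ x) (hy : 2 ≤ y) (hx : x ≤ 4) (hy3 : y ≤ 3) (hd : 3 ≤ d)
    (hs : a + b + c + d = 104 + x + y) :
    ForciblyBiconnected (fun i : Fin 52 => sq a b c d x y i) := by
  have h0 : sq a b c d x y 0 = a := rfl
  have h1 : sq a b c d x y 1 = b := rfl
  have h2 : sq a b c d x y 2 = c := rfl
  have h3 : sq a b c d x y 3 = d := rfl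
  have h4 : sq a b c d x y 4 = x := rfl
  have h5 : sq a b c d x y 5 = y := rfl
  have h6 := sq6 a b c d x y
  have hanti := sq_anti a b c d x y hab hbc hcd hdx hxy hy
  set D := sq a b c d x y with hD
  refine fb_tight 52 (by norm_num) D ?_ ?_ ?_
  · -- graphical
    set D' : ℕ → ℕ := fun i => if i < 52 then D i else 0 with hD'
    have hDD : ∀ i, i < 52 → D' i = D i := fun i hi => by simp only [hD']; rw [if_pos hi]
    have hgr : Gr (fun i : Fin 52 => D' i) := by
      have hr6 : ∀ k, 6 ≤ k → k ≤ 52 → ∑ i ∈ range k, D' i = a + b + c + d + x + y + (k - 6) * 2 := by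
        intro k hk hk2
        rw [range_peel D' 6 k hk, ico_const 6 k 2 D' (fun i hi hi2 => by
          rw [hDD i (by omega), h6 i hi])]
        simp only [Finset.sum_range_succ, Finset.sum_range_zero]
        rw [hDD 0 (by norm_num), hDD 1 (by norm_num), hDD 2 (by norm_num), hDD 3 (by norm_num),
          hDD 4 (by norm_num), hDD 5 (by norm_num), h0, h1, h2, h3, h4, h5]
        ring
      refine eg_sorted 52 _ D' ?_ ?_ rfl ?_ ?_
      · intro i
        simp only [hD']
        by_cases hi : i + 1 < 52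
        · rw [if_pos hi, if_pos (by omega)]; exact hanti i
        · rw [if_neg hi]; exact Nat.zero_le _
      · intro i hi
        simp only [hD']; rw [if_neg (by omega)]
      · rw [hr6 52 (by norm_num) le_rfl, hs]
        exact ⟨x + y + 98, by omega⟩
      · intro k hk
        rcases Nat.lt_or_ge k 6 with hk6 | hk6
        · have hc6 : ∑ i ∈ Ico 6 52, min (D' i) k = 46 * min 2 k :=
            ico_const 6 52 (min 2 k) _ (fun i hi hi2 => by rw [hDD i (by omega), h6 i hi])
          interval_cases k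
          · simp
          · rw [sum_peel _ 1 52 (by norm_num), sum_peel _ 2 52 (by norm_num),
              sum_peel _ 3 52 (by norm_num), sum_peel _ 4 52 (by norm_num),
              sum_peel _ 5 52 (by norm_num)]
            simp only [Nat.reduceAdd]
            rw [hc6]
            simp only [Finset.sum_range_succ, Finset.sum_range_zero]
            rw [hDD 0 (by norm_num), hDD 1 (by norm_num), hDD 2 (by norm_num),
              hDD 3 (by norm_num), hDD 4 (by norm_num), hDD 5 (by norm_num), h0, h1, h2, h3, h4, h5]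
            omega
          · rw [sum_peel _ 2 52 (by norm_num),
              sum_peel _ 3 52 (by norm_num), sum_peel _ 4 52 (by norm_num),
              sum_peel _ 5 52 (by norm_num)]
            simp only [Nat.reduceAdd]
            rw [hc6]
            simp only [Finset.sum_range_succ, Finset.sum_range_zero]
            rw [hDD 0 (by norm_num), hDD 1 (by norm_num), hDD 2 (by norm_num),
              hDD 3 (by norm_num), hDD 4 (by norm_num), hDD 5 (by norm_num), h0, h1, h2, h3, h4, h5]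
            omega
          · rw [sum_peel _ 3 52 (by norm_num), sum_peel _ 4 52 (by norm_num),
              sum_peel _ 5 52 (by norm_num)]
            simp only [Nat.reduceAdd]
            rw [hc6]
            simp only [Finset.sum_range_succ, Finset.sum_range_zero]
            rw [hDD 0 (by norm_num), hDD 1 (by norm_num), hDD 2 (by norm_num),
              hDD 3 (by norm_num), hDD 4 (by norm_num), hDD 5 (by norm_num), h0, h1, h2, h3, h4, h5]
            omega
          · rw [sum_peel _ 4 52 (by norm_num), sum_peel _ 5 52 (by norm_num)]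
            simp only [Nat.reduceAdd]
            rw [hc6]
            simp only [Finset.sum_range_succ, Finset.sum_range_zero]
            rw [hDD 0 (by norm_num), hDD 1 (by norm_num), hDD 2 (by norm_num),
              hDD 3 (by norm_num), hDD 4 (by norm_num), hDD 5 (by norm_num), h0, h1, h2, h3, h4, h5]
            omega
          · rw [sum_peel _ 5 52 (by norm_num)]
            simp only [Nat.reduceAdd]
            rw [hc6]
            simp only [Finset.sum_range_succ, Finset.sum_range_zero]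
            rw [hDD 0 (by norm_num), hDD 1 (by norm_num), hDD 2 (by norm_num),
              hDD 3 (by norm_num), hDD 4 (by norm_num), hDD 5 (by norm_num), h0, h1, h2, h3, h4, h5]
            omega
        · rw [hr6 k hk6 hk, ico_const k 52 2 _ (fun i hi hi2 => by
            rw [hDD i (by omega), h6 i (by omega)]; omega)]
          have hkk : 6 * k ≤ k * (k - 1) + k := by
            have : k * (k - 1) + k = k * k := by
              obtain ⟨m, hm⟩ : ∃ m, k = m + 1 := ⟨k - 1, by omega⟩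
              rw [hm]; simp only [Nat.add_sub_cancel]; ring
            rw [this]
            exact Nat.mul_le_mul_right _ hk6
          omega
    convert hgr using 2 with i
    rw [hDD i i.2]
  · intro i hi
    rcases Nat.lt_or_ge i 6 with h | h
    · interval_cases i <;> simp only [h0, h1, h2, h3, h4, h5] <;> omega
    · rw [h6 i h]
  · rw [sum_peel D 4 52 (by norm_num), sum_peel D 5 52 (by norm_num)]
    simp only [Nat.reduceAdd]
    rw [ico_const 6 52 2 D (fun i hi _ => h6 i hi), h0, h1, h2, h3, h4, h5, hs]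
    omega

lemma sq_sum (a b c d x y : ℕ) :
    ∑ i : Fin 52, sq a b c d x y i = a + b + c + d + x + y + 92 := by
  rw [Fin.sum_univ_eq_sum_range (sq a b c d x y) 52, range_peel _ 6 52 (by norm_num),
    ico_const 6 52 2 _ (fun i hi _ => sq6 a b c d x y i hi)]
  simp only [Finset.sum_range_succ, Finset.sum_range_zero]
  simp [sq]

/-- the triples `(b, c, d)` with `lo ≤ d ≤ c ≤ b ≤ a ≤ 51`, where `a = S - (b + c + d)` -/
@[irreducible] def T (S lo : ℕ) : Finset (ℕ × ℕ × ℕ) :=
  (range 52 ×ˢ range 52 ×ˢ range 52).filter fun p =>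
    lo ≤ p.2.2 ∧ p.2.2 ≤ p.2.1 ∧ p.2.1 ≤ p.1 ∧ p.1 + p.2.1 + p.2.2 + p.1 ≤ S ∧
      S ≤ p.1 + p.2.1 + p.2.2 + 51

/-- the sequence of a triple -/
def fam (S x y : ℕ) (p : ℕ × ℕ × ℕ) : Fin 52 → ℕ :=
  fun i => sq (S - (p.1 + p.2.1 + p.2.2)) p.1 p.2.1 p.2.2 x y i

lemma fam_inj (S x y : ℕ) : Function.Injective (fam S x y) := by
  rintro ⟨b, c, d⟩ ⟨b', c', d'⟩ h
  have h1 := congrFun h 1
  have h2 := congrFun h 2
  have h3 := congrFun h 3
  simp only [fam] at h1 h2 h3
  have e1 : b = b' := h1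
  have e2 : c = c' := h2
  have e3 : d = d' := h3
  rw [e1, e2, e3]

lemma seqs_finite (n N : ℕ) : (seqs n N).Finite := by
  refine Set.Finite.subset (Finset.finite_toSet (Fintype.piFinset fun _ : Fin n => range (N + 1))) ?_
  rintro d ⟨_, h, _⟩
  simp only [Fintype.coe_piFinset, Set.mem_pi, Set.mem_univ, true_implies, Finset.mem_coe,
    Finset.mem_range]
  intro i
  have := Finset.single_le_sum (f := d) (fun j _ => Nat.zero_le _) (Finset.mem_univ i)
  omega

lemma fam_mem (S x y lo N : ℕ) (hS : S = 104 + x + y) (hlo : 3 ≤ lo) (hxlo : x ≤ lo) (hxy : y ≤ x)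
    (hy : 2 ≤ y) (hx : x ≤ 4) (hy3 : y ≤ 3) (hN : N = S + x + y + 92) (p : ℕ × ℕ × ℕ) (hp : p ∈ T S lo) :
    fam S x y p ∈ seqs 52 N := by
  obtain ⟨b, c, d⟩ := p
  simp only [T, Finset.mem_filter, Finset.mem_product, Finset.mem_range] at hp
  obtain ⟨_, h1, h2, h3, h4, h5⟩ := hp
  refine ⟨?_, ?_, ?_⟩
  · have hanti := antitone_nat_of_succ_le (sq_anti (S - (b + c + d)) b c d x y (by omega) h3 h2
      (by omega) hxy hy)
    intro i j hij
    exact hanti (by exact_mod_cast hij)
  · simp only [fam]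
    rw [sq_sum]
    omega
  · exact sq_fb (S - (b + c + d)) b c d x y (by omega) (by omega) h3 h2 (by omega) hxy hy hx hy3
      (by omega) (by omega)



/-- the eight lists -/
def L8 : List (List ℕ) := [[51, 51, 3, 3, 3, 3, 2, 2], [51, 50, 4, 3, 3, 3, 2, 2],
      [51, 50, 3, 3, 3, 3, 3, 2], [50, 50, 5, 3, 3, 3, 2, 2], [50, 50, 4, 4, 4, 2, 2, 2],
      [50, 50, 4, 4, 3, 3, 2, 2], [50, 50, 4, 3, 3, 3, 3, 2],
      [50, 50, 3, 3, 3, 3, 3, 3]]

/-- boolean check -/
def chk (e0 e1 x2 x3 x4 x5 x6 x7 : ℕ) : Bool :=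
  !(decide (e1 ≤ e0) && decide (x3 ≤ x2) && decide (x4 ≤ x3) && decide (x5 ≤ x4) &&
    decide (x6 ≤ x5) && decide (x7 ≤ x6) && decide (e0 + e1 + x2 + x3 + x4 + x5 + x6 + x7 = 6) &&
    decide (100 + e0 + e1 + (2 + x2) + (2 + x3) ≤ 12 + (min (2 + x4) 4 + (min (2 + x5) 4 +
      (min (2 + x6) 4 + (min (2 + x7) 4 + 88))))) && !(decide (x4 = 1) && decide (x5 = 0))) ||
  decide ([50 + e0, 50 + e1, 2 + x2, 2 + x3, 2 + x4, 2 + x5, 2 + x6, 2 + x7] ∈ L8)

lemma chk_all0 : ((List.range 2).all fun e0 => (List.range 2).all fun e1 =>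
    (List.range 7).all fun x2 => (List.range 4).all fun x3 => (List.range 3).all fun x4 =>
    (List.range 2).all fun x5 => (List.range 2).all fun x6 => (List.range 2).all fun x7 =>
      chk e0 e1 x2 x3 x4 x5 x6 x7) = true := by
  decide +kernel

lemma all_range {n : ℕ} {p : ℕ → Bool} (h : (List.range n).all p = true) (i : ℕ) (hi : i < n) :
    p i = true := List.all_eq_true.1 h i (List.mem_range.2 hi)

lemma chk_all (e0 : ℕ) (h0 : e0 < 2) (e1 : ℕ) (h1 : e1 < 2) (x2 : ℕ) (h2 : x2 < 7) (x3 : ℕ)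
    (h3 : x3 < 4) (x4 : ℕ) (h4 : x4 < 3) (x5 : ℕ) (h5 : x5 < 2) (x6 : ℕ) (h6 : x6 < 2) (x7 : ℕ)
    (h7 : x7 < 2) : chk e0 e1 x2 x3 x4 x5 x6 x7 = true :=
  all_range (all_range (all_range (all_range (all_range (all_range (all_range (all_range chk_all0
    e0 h0) e1 h1) x2 h2) x3 h3) x4 h4) x5 h5) x6 h6) x7 h7

lemma eight (d0 d1 d2 d3 d4 d5 d6 d7 : ℕ) (h0 : d0 ≤ 51) (h1 : 50 ≤ d1) (h01 : d1 ≤ d0)
    (h23 : d3 ≤ d2) (h34 : d4 ≤ d3) (h45 : d5 ≤ d4) (h56 : d6 ≤ d5) (h67 : d7 ≤ d6) (h7 : 2 ≤ d7)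
    (hs : d0 + d1 + d2 + d3 + d4 + d5 + d6 + d7 = 118)
    (hn : d0 + d1 + d2 + d3 ≤ 12 + (min d4 4 + (min d5 4 + (min d6 4 + (min d7 4 + 88)))))
    (hnot : ¬ (d4 = 3 ∧ d5 = 2)) :
    [d0, d1, d2, d3, d4, d5, d6, d7] ∈ L8 := by
  obtain ⟨e0, rfl⟩ : ∃ e, d0 = 50 + e := ⟨d0 - 50, by omega⟩
  obtain ⟨e1, rfl⟩ : ∃ e, d1 = 50 + e := ⟨d1 - 50, by omega⟩
  obtain ⟨x2, rfl⟩ : ∃ e, d2 = 2 + e := ⟨d2 - 2, by omega⟩
  obtain ⟨x3, rfl⟩ : ∃ e, d3 = 2 + e := ⟨d3 - 2, by omega⟩
  obtain ⟨x4, rfl⟩ : ∃ e, d4 = 2 + e := ⟨d4 - 2, by omega⟩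
  obtain ⟨x5, rfl⟩ : ∃ e, d5 = 2 + e := ⟨d5 - 2, by omega⟩
  obtain ⟨x6, rfl⟩ : ∃ e, d6 = 2 + e := ⟨d6 - 2, by omega⟩
  obtain ⟨x7, rfl⟩ : ∃ e, d7 = 2 + e := ⟨d7 - 2, by omega⟩
  have h := chk_all e0 (by omega) e1 (by omega) x2 (by omega) x3 (by omega) x4 (by omega)
    x5 (by omega) x6 (by omega) x7 (by omega)
  unfold chk at h
  rw [Bool.or_eq_true, Bool.not_eq_true'] at h
  rcases h with h | h
  · exfalso
    have : (decide (e1 ≤ e0) && decide (x3 ≤ x2) && decide (x4 ≤ x3) && decide (x5 ≤ x4) &&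
      decide (x6 ≤ x5) && decide (x7 ≤ x6) && decide (e0 + e1 + x2 + x3 + x4 + x5 + x6 + x7 = 6) &&
      decide (100 + e0 + e1 + (2 + x2) + (2 + x3) ≤ 12 + (min (2 + x4) 4 + (min (2 + x5) 4 +
      (min (2 + x6) 4 + (min (2 + x7) 4 + 88))))) && !(decide (x4 = 1) && decide (x5 = 0))) = true := by
      simp only [Bool.and_eq_true, decide_eq_true_eq, Bool.not_eq_true', Bool.and_eq_false_iff,
        decide_eq_false_iff_not]
      refine ⟨⟨⟨⟨⟨⟨⟨⟨?_, ?_⟩, ?_⟩, ?_⟩, ?_⟩, ?_⟩, ?_⟩, ?_⟩, ?_⟩ <;> omega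
    rw [this] at h
    exact absurd h (by decide)
  · exact of_decide_eq_true h

/-- the eight exceptional sequences with sum 206 -/
def E8 : Finset (Fin 52 → ℕ) := L8.toFinset.image fun l => fun i : Fin 52 => l.getD i 2

lemma E8_card : E8.card ≤ 8 := by
  unfold E8
  exact Finset.card_image_le.trans (List.toFinset_card_le L8)

lemma classify52 (d : Fin 52 → ℕ) (hd : d ∈ seqs 52 206) :
    d ∈ (T 109 3).image (fam 109 3 2) ∪ E8 := by
  have hanti := (mem_seqs.1 hd).1
  have hsum := (mem_seqs.1 hd).2.1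
  have hfb := (mem_seqs.1 hd).2.2
  set D : ℕ → ℕ := fun i => if h : i < 52 then d ⟨i, h⟩ else 0 with hD
  have hDd : (fun i : Fin 52 => D i) = d := by
    funext i; simp only [hD, i.2, dif_pos]
  have hDa : ∀ i j, i ≤ j → j < 52 → D j ≤ D i := by
    intro i j hij hj
    simp only [hD]
    rw [dif_pos hj, dif_pos (by omega)]
    exact hanti (by simpa [Fin.le_def] using hij)
  have hDs : ∑ i ∈ range 52, D i = 206 := by
    rw [← Fin.sum_univ_eq_sum_range D 52]
    rw [show (∑ i : Fin 52, D i) = ∑ i : Fin 52, d i from by rw [← hDd]]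
    exact hsum
  have hfb' : FB (fun i : Fin 52 => D i) := by rw [hDd]; exact hfb
  have hcl := classify 52 le_rfl D hDa hDs hfb'
  have htwo : ∀ i, i < 52 → 2 ≤ D i := fun i hi => fb_two (by norm_num) hfb' ⟨i, hi⟩
  have hGr : Gr (fun i : Fin 52 => D i) := by
    obtain ⟨⟨G, hG⟩, _⟩ := hfb'
    exact gr_of_realizes hG
  have hD0n : D 0 ≤ 51 := by
    have h1 := nec_nat 52 D hGr (range 1) (by intro i; simp only [Finset.mem_range]; omega)
    rw [ico_eq] at h1
    simp only [Finset.sum_range_one, Finset.card_range, Nat.sub_self, Nat.mul_zero,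
      Nat.zero_add] at h1
    have h2 := ico_const 1 52 1 (fun i => min (D i) 1)
      (fun i _ hi => by have := htwo i hi; omega)
    omega
  have h01 := hDa 0 1 (by norm_num) (by norm_num)
  have h12 := hDa 1 2 (by norm_num) (by norm_num)
  have h23 := hDa 2 3 (by norm_num) (by norm_num)
  have h34 := hDa 3 4 (by norm_num) (by norm_num)
  have h45 := hDa 4 5 (by norm_num) (by norm_num)
  have h56 := hDa 5 6 (by norm_num) (by norm_num)
  have h67 := hDa 6 7 (by norm_num) (by norm_num)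
  have main : ∀ (h1 : D 0 + D 1 + D 2 + D 3 = 109) (h2 : 3 ≤ D 3) (h3 : D 4 = 3)
      (h4 : ∀ i, 5 ≤ i → i < 52 → D i = 2), d ∈ (T 109 3).image (fam 109 3 2) ∪ E8 := by
    intro h1 h2 h3 h4
    rw [Finset.mem_union]
    left
    rw [Finset.mem_image]
    refine ⟨(D 1, D 2, D 3), ?_, ?_⟩
    · simp only [T, Finset.mem_filter, Finset.mem_product, Finset.mem_range]
      omega
    · rw [← hDd]
      funext i
      simp only [fam]
      obtain ⟨i, hi⟩ := i
      simp only
      rcases Nat.lt_or_ge i 6 with h | h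
      · interval_cases i
        · show 109 - (D 1 + D 2 + D 3) = D 0
          omega
        · rfl
        · rfl
        · rfl
        · show 3 = D 4
          omega
        · show 2 = D 5
          rw [h4 5 (by norm_num) (by norm_num)]
      · rw [sq6 _ _ _ _ _ _ _ h, h4 i (by omega) hi]
  rcases hcl with ⟨h1, h2, h3, h4⟩ | h1
  · exact main h1 h2 h3 h4
  · -- D 1 ≥ 50
    have h8 : D 8 = 2 := by
      by_contra hc
      have e1 := htwo 8 (by norm_num)
      have e2 : ∀ i, 2 ≤ i → i < 9 → 3 ≤ D i := by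
        intro i hi hi2
        have := hDa i 8 (by omega) (by norm_num)
        omega
      have e3 := range_peel D 2 52 (by norm_num)
      have e4 : ∑ i ∈ Ico 2 52, D i = ∑ i ∈ Ico 2 9, D i + ∑ i ∈ Ico 9 52, D i :=
        (Finset.sum_Ico_consecutive _ (by norm_num) (by norm_num)).symm
      have e5 := ico_ge 2 9 3 D e2
      have e6 := ico_ge 9 52 2 D (fun i _ hi => htwo i hi)
      rw [hDs] at e3
      simp only [Finset.sum_range_succ, Finset.sum_range_zero] at e3
      omega
    have hlater : ∀ i, 8 ≤ i → i < 52 → D i = 2 := by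
      intro i hi hin
      have := htwo i hin
      have := hDa 8 i hi hin
      omega
    have hs8 : D 0 + D 1 + D 2 + D 3 + D 4 + D 5 + D 6 + D 7 = 118 := by
      have e3 := range_peel D 8 52 (by norm_num)
      rw [ico_const 8 52 2 D hlater] at e3
      rw [hDs] at e3
      simp only [Finset.sum_range_succ, Finset.sum_range_zero] at e3
      omega
    have h4nec := nec_nat 52 D hGr (range 4) (by intro i; simp only [Finset.mem_range]; omega)
    rw [ico_eq, Finset.card_range, sum_peel _ 4 52 (by norm_num), sum_peel _ 5 52 (by norm_num),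
      sum_peel _ 6 52 (by norm_num), sum_peel _ 7 52 (by norm_num)] at h4nec
    simp only [Nat.reduceAdd] at h4nec
    rw [ico_const 8 52 2 _ (fun i hi hin => by rw [hlater i hi hin]; rfl)] at h4nec
    simp only [Finset.sum_range_succ, Finset.sum_range_zero] at h4nec
    have g7 := htwo 7 (by norm_num)
    by_cases hmain : D 4 = 3 ∧ D 5 = 2
    · refine main ?_ ?_ hmain.1 ?_
      · omega
      · omega
      · intro i hi hin
        have := htwo i hin
        have := hDa 5 i hi hin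
        omega
    · rw [Finset.mem_union]
      right
      -- one of eight
      have h8 := eight (D 0) (D 1) (D 2) (D 3) (D 4) (D 5) (D 6) (D 7) hD0n (by omega) h01 h23 h34
        h45 h56 h67 g7 hs8 (by omega) hmain
      unfold E8
      rw [Finset.mem_image]
      refine ⟨_, List.mem_toFinset.2 h8, ?_⟩
      rw [← hDd]
      funext i
      obtain ⟨i, hi⟩ := i
      simp only
      rcases Nat.lt_or_ge i 8 with h' | h'
      · interval_cases i <;> rfl
      · rw [List.getD_eq_default _ _ (by simpa using h'), hlater i h' hi]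

lemma card_ge {n N : ℕ} (F : Finset (Fin n → ℕ)) (h : ∀ d ∈ F, d ∈ seqs n N) :
    F.card ≤ F₂ n N := by
  have h1 : (F : Set (Fin n → ℕ)) ⊆ seqs n N := fun d hd => h d (Finset.mem_coe.1 hd)
  have h2 := Set.ncard_le_ncard h1 (seqs_finite n N)
  rwa [Set.ncard_coe_finset] at h2

lemma card_le {n N : ℕ} (F : Finset (Fin n → ℕ)) (h : ∀ d ∈ seqs n N, d ∈ F) :
    F₂ n N ≤ F.card := by
  have h1 : seqs n N ⊆ (F : Set (Fin n → ℕ)) := fun d hd => Finset.mem_coe.2 (h d hd)
  have h2 := Set.ncard_le_ncard h1 (Finset.finite_toSet F)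
  rwa [Set.ncard_coe_finset] at h2

lemma upper : F₂ 52 206 ≤ (T 109 3).card + 8 := by
  have h2 := card_le _ classify52
  have h3 := Finset.card_union_le ((T 109 3).image (fam 109 3 2)) E8
  have h4 : ((T 109 3).image (fam 109 3 2)).card ≤ (T 109 3).card := Finset.card_image_le
  have h5 := E8_card
  omega

lemma lower1 : (T 108 3).card ≤ F₂ 52 204 := by
  have h2 := card_ge (N := 204) ((T 108 3).image (fam 108 2 2)) (by
    intro d hd
    rw [Finset.mem_image] at hd
    obtain ⟨p, hp, rfl⟩ := hd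
    exact fam_mem 108 2 2 3 204 (by norm_num) le_rfl (by norm_num) le_rfl le_rfl (by norm_num)
      (by norm_num) (by norm_num) p hp)
  rw [Finset.card_image_of_injective _ (fam_inj 108 2 2)] at h2
  exact h2

lemma lower2 : (T 110 3).card + (T 110 4).card ≤ F₂ 52 208 := by
  have h2 := card_ge (N := 208) ((T 110 3).image (fam 110 3 3) ∪ (T 110 4).image (fam 110 4 2)) (by
    intro d hd
    rw [Finset.mem_union, Finset.mem_image, Finset.mem_image] at hd
    rcases hd with ⟨p, hp, rfl⟩ | ⟨p, hp, rfl⟩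
    · exact fam_mem 110 3 3 3 208 (by norm_num) le_rfl le_rfl le_rfl (by norm_num) (by norm_num)
        le_rfl (by norm_num) p hp
    · exact fam_mem 110 4 2 4 208 (by norm_num) (by norm_num) le_rfl (by norm_num) le_rfl le_rfl
        (by norm_num) (by norm_num) p hp)
  rw [Finset.card_union_of_disjoint, Finset.card_image_of_injective _ (fam_inj 110 3 3),
    Finset.card_image_of_injective _ (fam_inj 110 4 2)] at h2
  · exact h2
  · rw [Finset.disjoint_left]
    intro d h3 h4
    rw [Finset.mem_image] at h3 h4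
    obtain ⟨p, _, hp⟩ := h3
    obtain ⟨q, _, hq⟩ := h4
    have h5 := congrFun (hp.trans hq.symm) 4
    have h6 : (3 : ℕ) = 4 := h5
    omega

/-- counting with nested loops -/
def cnt3 (S b c lo : ℕ) : ℕ → ℕ
  | 0 => 0
  | k + 1 => cnt3 S b c lo k +
      (if lo ≤ k ∧ b + c + k + b ≤ S ∧ S ≤ b + c + k + 51 then 1 else 0)

/-- counting with nested loops -/
def cnt2 (S b lo : ℕ) : ℕ → ℕ
  | 0 => 0
  | k + 1 => cnt2 S b lo k + cnt3 S b k lo (k + 1)

/-- counting with nested loops -/
def cnt1 (S lo : ℕ) : ℕ → ℕ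
  | 0 => 0
  | k + 1 => cnt1 S lo k + cnt2 S k lo (k + 1)

lemma cnt3_eq (S b c lo k : ℕ) : cnt3 S b c lo k = ∑ d ∈ range k,
    (if lo ≤ d ∧ b + c + d + b ≤ S ∧ S ≤ b + c + d + 51 then 1 else 0) := by
  induction k with
  | zero => rfl
  | succ k ih => rw [Finset.sum_range_succ, ← ih, cnt3]

lemma cnt2_eq (S b lo k : ℕ) : cnt2 S b lo k = ∑ c ∈ range k, cnt3 S b c lo (c + 1) := by
  induction k with
  | zero => rfl
  | succ k ih => rw [Finset.sum_range_succ, ← ih, cnt2]

lemma cnt1_eq (S lo k : ℕ) : cnt1 S lo k = ∑ b ∈ range k, cnt2 S b lo (b + 1) := by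
  induction k with
  | zero => rfl
  | succ k ih => rw [Finset.sum_range_succ, ← ih, cnt1]

lemma cardT (S lo : ℕ) : (T S lo).card = cnt1 S lo 52 := by
  unfold T
  rw [Finset.card_filter, Finset.sum_product, cnt1_eq]
  refine Finset.sum_congr rfl fun b hb => ?_
  rw [Finset.mem_range] at hb
  rw [Finset.sum_product, cnt2_eq]
  have h1 : range (b + 1) ⊆ range 52 := by intro i; simp only [Finset.mem_range]; omega
  rw [← Finset.sum_subset h1]
  · refine Finset.sum_congr rfl fun c hc => ?_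
    rw [Finset.mem_range] at hc
    rw [cnt3_eq]
    have h2 : range (c + 1) ⊆ range 52 := by intro i; simp only [Finset.mem_range]; omega
    rw [← Finset.sum_subset h2]
    · refine Finset.sum_congr rfl fun d hd => ?_
      rw [Finset.mem_range] at hd
      congr 1
      rw [eq_iff_iff]
      simp only
      omega
    · intro d _ hd
      rw [Finset.mem_range] at hd
      rw [if_neg]
      simp only
      omega
  · intro c _ hc
    rw [Finset.mem_range] at hc
    refine Finset.sum_eq_zero fun d _ => ?_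
    rw [if_neg]
    simp only
    omega

lemma T1 : cnt1 108 3 52 = 3581 := by decide +kernel
lemma T2 : cnt1 109 3 52 = 3572 := by decide +kernel
lemma T3 : cnt1 110 3 52 = 3572 := by decide +kernel
lemma T4 : cnt1 110 4 52 = 3372 := by decide +kernel

lemma dip1 : F₂ 52 206 < F₂ 52 204 := by
  have h1 := upper
  have h2 := lower1
  rw [cardT, T1] at h2
  rw [cardT, T2] at h1
  omega

lemma dip2 : F₂ 52 206 < F₂ 52 208 := by
  have h1 := upper
  have h2 := lower2
  rw [cardT, cardT, T3, T4] at h2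
  rw [cardT, T2] at h1
  omega

/-- The sequence `F₂(n, 2n-2), F₂(n, 2n), …, F₂(n, n(n-1))` is not unimodal for `n = 52`. -/
theorem result : ∃ n : ℕ, 3 ≤ n ∧
    ¬ Unimodal ((n * (n - 1) - (2 * n - 2)) / 2) (fun t => F₂ n (2 * n - 2 + 2 * t)) := by
  refine ⟨52, by norm_num, ?_⟩
  rintro ⟨k, _, hup, hdown⟩
  have h1 := dip1
  have h2 := dip2
  rcases Nat.lt_or_ge 51 k with h | h
  · have := hup 51 h
    simp only [Nat.reduceMul, Nat.reduceSub, Nat.reduceAdd] at this
    omega
  · have := hdown 52 (by omega) (by norm_num)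
    simp only [Nat.reduceMul, Nat.reduceSub, Nat.reduceAdd] at this
    omega

end Pool.Agent.Results.MP_5c9610_co.Dip
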